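import Mathlib

/-!
Let `A` and `V` be permutations of a finite set all whose cycles have the same length `m`. A partial
bijection between representatives of cycles extends to a permutation conjugating `V` to `A`.
-/

set_option autoImplicit false

namespace Pool.Agent.Q59.RS

theorem reps {X : Type} [Finite X] (V : Equiv.Perm X) (m : ℕ) (hV : V ^ m = 1)
    (hfree : ∀ (x : X) (k : ℤ), (V ^ k) x = x → (m : ℤ) ∣ k) {S : Type} (d : S → X)
    (hd : ∀ s s' (k : ℤ), (V ^ k) (d s) = d s' → s = s') :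
    ∃ (O : Type) (_ : Finite O) (Φ : O × ZMod m ≃ X) (δ : S → O), Function.Injective δ ∧
      (∀ o k, Φ (o, k + 1) = V (Φ (o, k))) ∧ ∀ s, Φ (δ s, 0) = d s := by
  classical
  let st := Equiv.Perm.SameCycle.setoid V
  let O := Quotient st
  have hO : Finite O := inferInstance
  let δ : S → O := fun s => Quotient.mk st (d s)
  have hδ : Function.Injective δ := by
    intro s s' h
    obtain ⟨k, hk⟩ := (Quotient.exact h : V.SameCycle (d s) (d s'))
    exact hd s s' k hk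
  let rep : O → X := fun o => if h : ∃ s, δ s = o then d h.choose else o.out
  have hrep : ∀ o, Quotient.mk st (rep o) = o := by
    intro o
    by_cases h : ∃ s, δ s = o
    · have h1 : rep o = d h.choose := by simp only [rep, dif_pos h]
      rw [h1]
      exact h.choose_spec
    · have h1 : rep o = o.out := by simp only [rep, dif_neg h]
      rw [h1]
      exact Quotient.out_eq o
  have hrepδ : ∀ s, rep (δ s) = d s := by
    intro s
    have h : ∃ s', δ s' = δ s := ⟨s, rfl⟩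
    have h1 : rep (δ s) = d h.choose := by simp only [rep, dif_pos h]
    rw [h1]
    congr 1
    exact hδ h.choose_spec
  have hmod : ∀ i j : ℤ, (m : ℤ) ∣ i - j → V ^ i = V ^ j := by
    intro i j hij
    obtain ⟨c, hc⟩ := hij
    have : i = j + m * c := by linarith
    rw [this, zpow_add, zpow_mul, zpow_natCast, hV, one_zpow, mul_one]
  let f : O × ZMod m → X := fun p => (V ^ (p.2.cast : ℤ)) (rep p.1)
  have hfinj : Function.Injective f := by
    rintro ⟨o, k⟩ ⟨o', k'⟩ h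
    simp only [f] at h
    have hoo : o = o' := by
      rw [← hrep o, ← hrep o']
      apply Quotient.sound
      change V.SameCycle (rep o) (rep o')
      refine ⟨-(k'.cast : ℤ) + (k.cast : ℤ), ?_⟩
      rw [zpow_add, Equiv.Perm.mul_apply, h, ← Equiv.Perm.mul_apply, ← zpow_add, neg_add_cancel,
        zpow_zero, Equiv.Perm.one_apply]
    subst hoo
    have h1 : (V ^ (-(k'.cast : ℤ) + (k.cast : ℤ))) (rep o) = rep o := by
      rw [zpow_add, Equiv.Perm.mul_apply, h, ← Equiv.Perm.mul_apply, ← zpow_add, neg_add_cancel,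
        zpow_zero, Equiv.Perm.one_apply]
    have h2 := hfree _ _ h1
    rw [← ZMod.intCast_zmod_eq_zero_iff_dvd] at h2
    push_cast at h2
    have : k = k' := by
      rw [neg_add_eq_zero] at h2
      exact h2.symm
    rw [this]
  have hfsurj : Function.Surjective f := by
    intro x
    have h1 : Quotient.mk st (rep (Quotient.mk st x)) = Quotient.mk st x := hrep _
    obtain ⟨i, hi⟩ := (Quotient.exact h1 : V.SameCycle (rep (Quotient.mk st x)) x)
    refine ⟨(Quotient.mk st x, (i : ZMod m)), ?_⟩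
    simp only [f]
    rw [hmod (((i : ZMod m)).cast : ℤ) i, hi]
    rw [← ZMod.intCast_zmod_eq_zero_iff_dvd]
    push_cast
    rw [sub_self]
  refine ⟨O, hO, Equiv.ofBijective f ⟨hfinj, hfsurj⟩, δ, hδ, ?_, ?_⟩
  · intro o k
    change (V ^ ((k + 1).cast : ℤ)) (rep o) = V ((V ^ (k.cast : ℤ)) (rep o))
    rw [← Equiv.Perm.mul_apply V, ← zpow_one_add, hmod ((k + 1).cast : ℤ) (1 + (k.cast : ℤ))]
    rw [← ZMod.intCast_zmod_eq_zero_iff_dvd]
    push_cast
    ring
  · intro s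
    change (V ^ ((0 : ZMod m).cast : ℤ)) (rep (δ s)) = d s
    rw [hrepδ, ZMod.cast_zero, zpow_zero, Equiv.Perm.one_apply]

theorem ext_perm {X : Type} [Finite X] (A V : Equiv.Perm X) (m : ℕ) (hm : 0 < m)
    (hA : A ^ m = 1) (hV : V ^ m = 1)
    (hAf : ∀ (x : X) (k : ℤ), (A ^ k) x = x → (m : ℤ) ∣ k)
    (hVf : ∀ (x : X) (k : ℤ), (V ^ k) x = x → (m : ℤ) ∣ k) {S : Type} (d e : S → X)
    (hd : ∀ s s' (k : ℤ), (V ^ k) (d s) = d s' → s = s')
    (he : ∀ s s' (k : ℤ), (A ^ k) (e s) = e s' → s = s') :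
    ∃ T : Equiv.Perm X, (∀ x, T (V x) = A (T x)) ∧ ∀ s, T (d s) = e s := by
  classical
  obtain ⟨O₁, f₁, Φ₁, δ₁, hδ₁, h₁, k₁⟩ := reps V m hV hVf d hd
  obtain ⟨O₂, f₂, Φ₂, δ₂, hδ₂, h₂, k₂⟩ := reps A m hA hAf e he
  have : NeZero m := ⟨hm.ne'⟩
  have hcard : Nat.card O₁ = Nat.card O₂ := by
    have e1 : Nat.card (O₁ × ZMod m) = Nat.card (O₂ × ZMod m) :=
      Nat.card_congr (Φ₁.trans Φ₂.symm)
    rw [Nat.card_prod, Nat.card_prod, Nat.card_zmod] at e1
    exact Nat.eq_of_mul_eq_mul_right hm e1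
  obtain ⟨η⟩ : Nonempty (O₁ ≃ O₂) := Finite.card_eq.1 hcard
  have hinj : Function.Injective (η.symm ∘ δ₂) := η.symm.injective.comp hδ₂
  have := Fintype.ofFinite O₁
  let ε : {x // x ∈ Set.range δ₁} ≃ {x // x ∈ Set.range (η.symm ∘ δ₂)} :=
    (Equiv.ofInjective δ₁ hδ₁).symm.trans (Equiv.ofInjective _ hinj)
  let σ : O₁ ≃ O₂ := (ε.extendSubtype).trans η
  have hσ : ∀ s, σ (δ₁ s) = δ₂ s := by
    intro s
    have h3 : ε.extendSubtype (δ₁ s) = (ε ⟨δ₁ s, ⟨s, rfl⟩⟩ : O₁) :=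
      Equiv.extendSubtype_apply_of_mem ε (δ₁ s) ⟨s, rfl⟩
    have h4 : (Equiv.ofInjective δ₁ hδ₁).symm ⟨δ₁ s, ⟨s, rfl⟩⟩ = s := by
      rw [Equiv.symm_apply_eq]
      rfl
    change η (ε.extendSubtype (δ₁ s)) = δ₂ s
    rw [h3]
    change η ((Equiv.ofInjective _ hinj) ((Equiv.ofInjective δ₁ hδ₁).symm ⟨δ₁ s, ⟨s, rfl⟩⟩)) = δ₂ s
    rw [h4]
    change η (η.symm (δ₂ s)) = δ₂ s
    rw [Equiv.apply_symm_apply]
  refine ⟨Φ₁.symm.trans ((σ.prodCongr (Equiv.refl (ZMod m))).trans Φ₂), ?_, ?_⟩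
  · intro x
    obtain ⟨⟨o, k⟩, rfl⟩ := Φ₁.surjective x
    rw [← h₁]
    simp only [Equiv.trans_apply, Equiv.symm_apply_apply, Equiv.prodCongr_apply, Prod.map_apply,
      Equiv.refl_apply, h₂]
  · intro s
    rw [← k₁ s]
    simp only [Equiv.trans_apply, Equiv.symm_apply_apply, Equiv.prodCongr_apply, Prod.map_apply,
      Equiv.refl_apply, hσ, k₂]

end Pool.Agent.Q59.RS
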