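import Mathlib
import Pool.Agent.H26R2.Basic
import Pool.Agent.Helper436.SM.RF1

/-!
In the free group on `a`, `b` let `v = a c a⁻¹ c⁻¹` with `c = b a b⁻¹`. The centralizers of `a` and
of `v` are the cyclic groups generated by these elements.
-/

set_option autoImplicit false

namespace Pool.Agent.Q59.RS

/-- The free group of rank two. -/
abbrev F : Type := FreeGroup (Fin 2)

/-- The first generator. -/
def a : F := FreeGroup.of 0

/-- The second generator. -/
def b : F := FreeGroup.of 1

/-- The word `v = a c a⁻¹ c⁻¹` with `c = b a b⁻¹`. -/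
def v : F := a * (b * a * b⁻¹) * a⁻¹ * (b * a * b⁻¹)⁻¹

/-- A nilpotent group of class three: the unipotent Toeplitz matrices acting on triples. -/
@[ext] structure T where
  /-- first coordinate of the matrix -/
  p : ℤ
  /-- second coordinate of the matrix -/
  q : ℤ
  /-- first coordinate of the vector -/
  x : ℤ
  /-- second coordinate of the vector -/
  y : ℤ
  /-- third coordinate of the vector -/
  z : ℤ

namespace T

instance : Mul T := ⟨fun g h => ⟨g.p + h.p, g.q + h.q + g.p * h.p,
  g.x + h.x + g.p * h.y + g.q * h.z, g.y + h.y + g.p * h.z, g.z + h.z⟩⟩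

instance : One T := ⟨⟨0, 0, 0, 0, 0⟩⟩

instance : Inv T := ⟨fun g => ⟨-g.p, g.p ^ 2 - g.q,
  -(g.x - g.p * g.y + (g.p ^ 2 - g.q) * g.z), -(g.y - g.p * g.z), -g.z⟩⟩

theorem mul_def (g h : T) : g * h = ⟨g.p + h.p, g.q + h.q + g.p * h.p,
  g.x + h.x + g.p * h.y + g.q * h.z, g.y + h.y + g.p * h.z, g.z + h.z⟩ := rfl

theorem one_def : (1 : T) = ⟨0, 0, 0, 0, 0⟩ := rfl

theorem inv_def (g : T) : g⁻¹ = ⟨-g.p, g.p ^ 2 - g.q,
  -(g.x - g.p * g.y + (g.p ^ 2 - g.q) * g.z), -(g.y - g.p * g.z), -g.z⟩ := rfl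

instance : Group T := Group.ofLeftAxioms
  (by intro g h k; ext <;> simp only [mul_def] <;> ring)
  (by intro g; ext <;> simp [mul_def, one_def])
  (by intro g; ext <;> simp only [mul_def, one_def, inv_def] <;> ring)

theorem pow_p (g : T) (n : ℕ) : (g ^ n).p = n * g.p := by
  induction n with
  | zero => simp [one_def]
  | succ n ih => rw [pow_succ]; simp only [mul_def, ih]; push_cast; ring

theorem pow_z (g : T) (n : ℕ) : (g ^ n).z = n * g.z := by
  induction n with
  | zero => simp [one_def]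
  | succ n ih => rw [pow_succ]; simp only [mul_def, ih]; push_cast; ring

theorem pow_q (g : T) (hp : g.p = 0) (n : ℕ) : (g ^ n).q = n * g.q := by
  induction n with
  | zero => simp [one_def]
  | succ n ih => rw [pow_succ]; simp only [mul_def, ih, hp]; push_cast; ring

theorem pow_x (g : T) (hp : g.p = 0) (hq : g.q = 0) (n : ℕ) : (g ^ n).x = n * g.x := by
  induction n with
  | zero => simp [one_def]
  | succ n ih =>
    rw [pow_succ]; simp only [mul_def, ih, pow_p, pow_q _ hp, hp, hq]; push_cast; ring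

end T

/-- the homomorphism to the nilpotent group -/
noncomputable def rho : F →* T := FreeGroup.lift ![⟨1, 0, 0, 0, 0⟩, ⟨0, 0, 0, 0, 1⟩]

theorem rho_v : rho v = ⟨0, 0, -1, 0, 0⟩ := by
  simp [rho, v, a, b, T.mul_def, T.inv_def]

/-- a natural power of an element of `T` equal to the image of `v` has exponent one -/
theorem pow_eq (g : T) (n : ℕ) (s : ℤ) (hs : s = 1 ∨ s = -1) (h : g ^ n = ⟨0, 0, s, 0, 0⟩) :
    n = 1 := by
  have hn : n ≠ 0 := by
    rintro rfl
    rw [pow_zero] at h
    have := congrArg T.x h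
    simp only [T.one_def] at this
    omega
  have hn' : (n : ℤ) ≠ 0 := by exact_mod_cast hn
  have hp : g.p = 0 := by
    have := congrArg T.p h
    rw [T.pow_p] at this
    exact (mul_eq_zero.1 this).resolve_left hn'
  have hq : g.q = 0 := by
    have := congrArg T.q h
    rw [T.pow_q _ hp] at this
    exact (mul_eq_zero.1 this).resolve_left hn'
  have hx := congrArg T.x h
  rw [T.pow_x _ hp hq] at hx
  have h1 : (n : ℤ) ∣ 1 := by
    rcases hs with rfl | rfl
    · exact ⟨_, hx.symm⟩
    · refine ⟨-g.x, ?_⟩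
      simp only at hx
      linarith
  have h2 : (n : ℤ) ≤ 1 := Int.le_of_dvd one_pos h1
  omega

/-- The centralizer of `v` is generated by `v`. -/
theorem cent_v (g : F) (h : Commute g v) : g ∈ Subgroup.zpowers v := by
  obtain ⟨r, i, j, hi, hj⟩ := Pool.Agent.H26R2.exists_root h
  have h1 : (rho r) ^ j = ⟨0, 0, -1, 0, 0⟩ := by rw [← map_zpow, ← hj, rho_v]
  have h3 : j = 1 ∨ j = -1 := by
    rcases le_total 0 j with h0 | h0
    · left
      obtain ⟨n, rfl⟩ := Int.eq_ofNat_of_zero_le h0
      rw [zpow_natCast] at h1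
      rw [pow_eq _ n (-1) (Or.inr rfl) h1]
      rfl
    · right
      obtain ⟨n, hn⟩ := Int.eq_ofNat_of_zero_le (neg_nonneg.2 h0)
      have h2 : (rho r) ^ n = ⟨0, 0, 1, 0, 0⟩ := by
        rw [← zpow_natCast, ← hn, zpow_neg, h1]
        simp [T.inv_def]
      have := pow_eq _ n 1 (Or.inl rfl) h2
      omega
  rw [Subgroup.mem_zpowers_iff]
  rcases h3 with rfl | rfl
  · exact ⟨i, by rw [hi, hj, zpow_one]⟩
  · exact ⟨-i, by rw [hi, hj]; group⟩

/-- The centralizer of `a` is generated by `a`. -/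
theorem cent_a (g : F) (h : Commute g a) : g ∈ Subgroup.zpowers a := by
  obtain ⟨i, hi⟩ := Pool.Agent.H26R2.mem_zpowers_of_commute h
    (FreeGroup.lift ![Multiplicative.ofAdd 1, 1]) (by simp [a])
  exact Subgroup.mem_zpowers_iff.2 ⟨i, hi.symm⟩

/-- Elements outside a cyclic group which is the centralizer of its generator remain outside in a
finite quotient. -/
theorem sep (x g : F) (hx : ∀ g, Commute g x → g ∈ Subgroup.zpowers x)
    (hg : g ∉ Subgroup.zpowers x) :
    ∃ (m : ℕ) (p : F →* Equiv.Perm (Fin m)), p g ∉ Subgroup.zpowers (p x) := by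
  have h1 : g * x * g⁻¹ * x⁻¹ ≠ 1 := by
    intro h
    apply hg
    apply hx
    have h2 : g * x * g⁻¹ = x := by
      rw [← mul_inv_eq_one]
      exact h
    have h3 : g * x = x * g := by
      rw [mul_inv_eq_iff_eq_mul] at h2
      exact h2
    exact h3
  obtain ⟨m, e, he⟩ := Pool.Agent.Helper436.SM.free_rf _ h1
  refine ⟨m, FreeGroup.lift e, ?_⟩
  intro hmem
  apply he
  obtain ⟨k, hk⟩ := Subgroup.mem_zpowers_iff.1 hmem
  rw [map_mul, map_mul, map_mul, map_inv, map_inv, ← hk]
  group

end Pool.Agent.Q59.RS
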