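import Mathlib
import Pool.Agent.Q59.RS.Root

/-!
Finite quotients of the free group on `a`, `b` in which `a` and `v` have the same order and in which
finitely many elements stay outside of `⟨a⟩` respectively `⟨v⟩`.
-/

set_option autoImplicit false

namespace Pool.Agent.Q59.RS

/-- the map to the dihedral group -/
def dih (n : ℕ) : F →* DihedralGroup (8 * n) :=
  FreeGroup.lift ![DihedralGroup.sr 0, DihedralGroup.r 1]

theorem dih_v (n : ℕ) : dih n v = DihedralGroup.r (-4) := by
  simp only [dih, v, a, b, map_mul, map_inv, FreeGroup.lift_apply_of, Matrix.cons_val_zero,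
    Matrix.cons_val_one, DihedralGroup.r_mul_sr, DihedralGroup.inv_r, DihedralGroup.sr_mul_r,
    DihedralGroup.inv_sr, DihedralGroup.sr_mul_sr]
  congr 1
  ring

theorem dih_a (n : ℕ) : dih n a ^ 2 = 1 := by
  simp only [dih, a, FreeGroup.lift_apply_of, Matrix.cons_val_zero]
  rw [pow_two, DihedralGroup.sr_mul_sr, sub_self]
  rfl

theorem dih_dvd (n k : ℕ) (h : dih n v ^ k = 1) : 2 * n ∣ k := by
  rw [dih_v, DihedralGroup.r_pow, DihedralGroup.one_def] at h
  have h1 : (-4 * (k : ZMod (8 * n)) : ZMod (8 * n)) = 0 := by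
    injection h
  have h2 : ((4 * k : ℕ) : ZMod (8 * n)) = 0 := by
    push_cast
    have : (4 * (k : ZMod (8 * n)) : ZMod (8 * n)) = -(-4 * (k : ZMod (8 * n))) := by ring
    rw [this, h1, neg_zero]
  rw [ZMod.natCast_eq_zero_iff] at h2
  obtain ⟨c, hc⟩ := h2
  exact ⟨c, by linarith⟩

/-- Every finite quotient is dominated by one in which `a` and `v` have the same order. -/
theorem equal_orders {P : Type} [Group P] [Finite P] (p : F →* P) :
    ∃ (Q : Type) (_ : Group Q) (_ : Finite Q) (q : F →* Q) (f : Q →* P),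
      f.comp q = p ∧ orderOf (q a) = orderOf (q v) := by
  set n := orderOf (p a) with hn
  have hn0 : 0 < n := orderOf_pos _
  have : NeZero (8 * n) := ⟨by omega⟩
  have : Finite (DihedralGroup (8 * n)) := Fintype.finite inferInstance
  set p1 : F →* P × DihedralGroup (8 * n) := p.prod (dih n) with hp1
  set M := orderOf (p1 v) with hM
  have hM0 : 0 < M := orderOf_pos _
  have : NeZero M := ⟨hM0.ne'⟩
  have hdvd : orderOf (p1 a) ∣ M := by
    have h1 : 2 * n ∣ M := by
      apply dih_dvd n M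
      have h2 : (p1 v) ^ M = 1 := pow_orderOf_eq_one _
      exact congrArg Prod.snd h2
    rw [orderOf_dvd_iff_pow_eq_one]
    obtain ⟨c, hc⟩ := h1
    apply Prod.ext
    · change p a ^ M = 1
      rw [hc, show 2 * n * c = n * (2 * c) by ring, pow_mul, hn, pow_orderOf_eq_one, one_pow]
    · change dih n a ^ M = 1
      rw [hc, show 2 * n * c = 2 * (n * c) by ring, pow_mul, dih_a, one_pow]
  have : Finite (Multiplicative (ZMod M)) := inferInstance
  set cy : F →* Multiplicative (ZMod M) :=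
    FreeGroup.lift ![Multiplicative.ofAdd (1 : ZMod M), 1] with hcy
  have hcya : cy a = Multiplicative.ofAdd (1 : ZMod M) := by simp [hcy, a]
  have hcyv : cy v = 1 := by
    simp only [v, map_mul, map_inv]
    rw [mul_comm (cy b), mul_assoc (cy a) (cy b), mul_inv_cancel, mul_one]
    group
  refine ⟨(P × DihedralGroup (8 * n)) × Multiplicative (ZMod M), inferInstance, inferInstance,
    p1.prod cy, (MonoidHom.fst _ _).comp (MonoidHom.fst _ _), ?_, ?_⟩
  · ext x
    rfl
  · have e1 : orderOf ((p1.prod cy) a) = (orderOf (p1 a)).lcm (orderOf (cy a)) := Prod.orderOf_mk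
    have e2 : orderOf ((p1.prod cy) v) = (orderOf (p1 v)).lcm (orderOf (cy v)) := Prod.orderOf_mk
    rw [e1, e2, hcya, hcyv, orderOf_one, Nat.lcm_one_right, orderOf_ofAdd_eq_addOrderOf,
      ZMod.addOrderOf_one, ← hM]
    exact Nat.lcm_eq_right hdvd

/-- the separation property for finitely many elements -/
theorem fam0 (g : ℕ → F) (g0 : F) (n : ℕ) :
    ∃ (Q : Type) (_ : Group Q) (_ : Finite Q) (p : F →* Q),
      (g0 ≠ 1 → p g0 ≠ 1) ∧
      ∀ j < n, (g j ∉ Subgroup.zpowers v → p (g j) ∉ Subgroup.zpowers (p v)) ∧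
        (g j ∉ Subgroup.zpowers a → p (g j) ∉ Subgroup.zpowers (p a)) := by
  induction n with
  | zero =>
    by_cases h : g0 = 1
    · exact ⟨Unit, inferInstance, inferInstance, 1, fun h' => absurd h h',
        fun j hj => absurd hj (by omega)⟩
    · obtain ⟨m, e, he⟩ := Pool.Agent.Helper436.SM.free_rf _ h
      exact ⟨Equiv.Perm (Fin m), inferInstance, inferInstance, FreeGroup.lift e, fun _ => he,
        fun j hj => absurd hj (by omega)⟩
  | succ n ih =>
    obtain ⟨Q, iG, iF, p, h0, h1⟩ := ih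
    have key : ∀ x : F, (∀ g, Commute g x → g ∈ Subgroup.zpowers x) →
        ∃ (Q' : Type) (_ : Group Q') (_ : Finite Q') (p' : F →* Q'),
          (g n ∉ Subgroup.zpowers x → p' (g n) ∉ Subgroup.zpowers (p' x)) := by
      intro x hx
      by_cases h : g n ∈ Subgroup.zpowers x
      · exact ⟨Unit, inferInstance, inferInstance, 1, fun h' => absurd h h'⟩
      · obtain ⟨m, p', hp'⟩ := sep x (g n) hx h
        exact ⟨_, inferInstance, inferInstance, p', fun _ => hp'⟩
    obtain ⟨Q2, iG2, iF2, p2, h2⟩ := key v cent_v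
    obtain ⟨Q3, iG3, iF3, p3, h3⟩ := key a cent_a
    have pass : ∀ {A B : Type} [Group A] [Group B] (f : A →* B) (q : F →* A) (x y : F),
        f.comp q y ∉ Subgroup.zpowers (f.comp q x) → q y ∉ Subgroup.zpowers (q x) := by
      intro A B _ _ f q x y h hm
      apply h
      obtain ⟨k, hk⟩ := Subgroup.mem_zpowers_iff.1 hm
      refine Subgroup.mem_zpowers_iff.2 ⟨k, ?_⟩
      rw [MonoidHom.comp_apply, MonoidHom.comp_apply, ← hk, map_zpow]
    refine ⟨(Q × Q2) × Q3, inferInstance, inferInstance, (p.prod p2).prod p3, ?_, ?_⟩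
    · intro h h'
      exact h0 h (congrArg (fun z => z.1.1) h')
    · intro j hj
      rcases Nat.lt_succ_iff_lt_or_eq.1 hj with hj | rfl
      · refine ⟨fun h => ?_, fun h => ?_⟩
        · exact pass ((MonoidHom.fst Q Q2).comp (MonoidHom.fst (Q × Q2) Q3)) _ _ _ ((h1 j hj).1 h)
        · exact pass ((MonoidHom.fst Q Q2).comp (MonoidHom.fst (Q × Q2) Q3)) _ _ _ ((h1 j hj).2 h)
      · refine ⟨fun h => ?_, fun h => ?_⟩
        · exact pass ((MonoidHom.snd Q Q2).comp (MonoidHom.fst (Q × Q2) Q3)) _ _ _ (h2 h)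
        · exact pass (MonoidHom.snd (Q × Q2) Q3) _ _ _ (h3 h)

/-- the separation property for finitely many elements, with equal orders of `a` and `v` -/
theorem fam (g : ℕ → F) (g0 : F) (n : ℕ) :
    ∃ (Q : Type) (_ : Group Q) (_ : Finite Q) (p : F →* Q),
      orderOf (p a) = orderOf (p v) ∧ (g0 ≠ 1 → p g0 ≠ 1) ∧
      ∀ j < n, (g j ∉ Subgroup.zpowers v → p (g j) ∉ Subgroup.zpowers (p v)) ∧
        (g j ∉ Subgroup.zpowers a → p (g j) ∉ Subgroup.zpowers (p a)) := by
  obtain ⟨P, iG, iF, p, h0, h1⟩ := fam0 g g0 n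
  obtain ⟨Q, iG', iF', q, f, hf, ho⟩ := equal_orders p
  have pass : ∀ (x y : F), p y ∉ Subgroup.zpowers (p x) → q y ∉ Subgroup.zpowers (q x) := by
    intro x y h hm
    apply h
    obtain ⟨k, hk⟩ := Subgroup.mem_zpowers_iff.1 hm
    refine Subgroup.mem_zpowers_iff.2 ⟨k, ?_⟩
    rw [← hf, MonoidHom.comp_apply, MonoidHom.comp_apply, ← hk, map_zpow]
  refine ⟨Q, iG', iF', q, ho, ?_, ?_⟩
  · intro h h'
    apply h0 h
    rw [← hf, MonoidHom.comp_apply, h', map_one]
  · intro j hj
    exact ⟨fun h => pass _ _ ((h1 j hj).1 h), fun h => pass _ _ ((h1 j hj).2 h)⟩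

end Pool.Agent.Q59.RS
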