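import Mathlib
import Pool.Agent.Q59.RS.Quo
import Pool.Agent.Q59.RS.Ext

/-!
The group `⟨a, b, t ∣ t⁻¹ a t = a c a⁻¹ c⁻¹⟩`, `c = b a b⁻¹`, is residually finite, and `a` is a
nontrivial element of all terms of the derived series.
-/

set_option autoImplicit false

namespace Pool.Agent.Q59.RS

open PresentedGroup
open scoped commutatorElement

/-- the inclusion of the free group of rank two -/
noncomputable def inc : F →* FreeGroup (Fin 3) := FreeGroup.lift ![FreeGroup.of 0, FreeGroup.of 1]

/-- the relator -/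
noncomputable def rel : FreeGroup (Fin 3) :=
  (FreeGroup.of 2)⁻¹ * inc a * FreeGroup.of 2 * (inc v)⁻¹

/-- the group -/
abbrev G : Type := PresentedGroup ({rel} : Set (FreeGroup (Fin 3)))

/-- the map from the free group of rank two -/
noncomputable def ι : F →* G := (PresentedGroup.mk {rel}).comp inc

/-- the stable letter -/
noncomputable def τ : G := PresentedGroup.mk {rel} (FreeGroup.of 2)

theorem rel_eq : τ⁻¹ * ι a * τ = ι v := by
  have h : PresentedGroup.mk {rel} rel = 1 :=
    PresentedGroup.one_of_mem (rels := {rel}) (Set.mem_singleton rel)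
  have h2 : τ⁻¹ * ι a * τ * (ι v)⁻¹ = 1 := by
    rw [← h]
    simp only [rel]
    rfl
  exact mul_inv_eq_one.1 h2

/-- the letters `t`, `t⁻¹` -/
noncomputable def tt (e : Bool) : G := if e then τ else τ⁻¹

/-- the associated subgroups -/
def w (e : Bool) : F := if e then v else a

theorem pinch (e : Bool) : tt e * ι (w e) * tt (!e) = ι (w (!e)) := by
  cases e
  · simp only [tt, w, Bool.not_false, if_true, Bool.false_eq_true, if_false]
    exact rel_eq
  · simp only [tt, w, Bool.not_true, if_true, Bool.false_eq_true, if_false]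
    rw [← rel_eq]
    group

theorem tt_not (e : Bool) : tt (!e) = (tt e)⁻¹ := by
  cases e <;> simp [tt]

theorem pinch_zpow (e : Bool) (k : ℤ) : tt e * ι (w e ^ k) * tt (!e) = ι (w (!e) ^ k) := by
  rw [map_zpow, map_zpow, ← pinch, tt_not, ← conj_zpow]

/-- words -/
noncomputable def ev (s : ℕ → Bool × F) : ℕ → G
  | 0 => 1
  | n + 1 => tt (s n).1 * ι (s n).2 * ev s n

theorem ev_congr (s s' : ℕ → Bool × F) (n : ℕ) (h : ∀ j < n, s j = s' j) : ev s n = ev s' n := by
  induction n with
  | zero => rfl
  | succ n ih =>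
    simp only [ev]
    rw [ih fun j hj => h j (by omega), h n (by omega)]

/-- reduced words -/
def red (s : ℕ → Bool × F) (n : ℕ) : Prop :=
  ∀ j, j + 1 < n → (s j).1 = !(s (j + 1)).1 → (s (j + 1)).2 ∉ Subgroup.zpowers (w (s (j + 1)).1)

/-- the elements with a reduced form -/
def HasRed (x : G) : Prop := ∃ (s : ℕ → Bool × F) (n : ℕ) (g : F), x = ι g * ev s n ∧ red s n

theorem hasRed_base (h : F) (x : G) (hx : HasRed x) : HasRed (ι h * x) := by
  obtain ⟨s, n, g, rfl, hr⟩ := hx
  exact ⟨s, n, h * g, by rw [map_mul, mul_assoc], hr⟩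

theorem hasRed_letter (e : Bool) (x : G) (hx : HasRed x) : HasRed (tt e * x) := by
  classical
  obtain ⟨s, n, g, rfl, hr⟩ := hx
  by_cases hok : ∀ k, n = k + 1 → (s k).1 = !e → g ∉ Subgroup.zpowers (w e)
  · refine ⟨Function.update s n (e, g), n + 1, 1, ?_, ?_⟩
    · rw [map_one, one_mul]
      simp only [ev, Function.update_self]
      rw [ev_congr (Function.update s n (e, g)) s n
        (fun j hj => Function.update_of_ne (by omega) _ _), mul_assoc]
    · intro j hj
      by_cases h : j + 1 < n
      · rw [Function.update_of_ne (by omega), Function.update_of_ne (by omega)]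
        exact hr j h
      · have hn : n = j + 1 := by omega
        subst hn
        rw [Function.update_of_ne (by omega), Function.update_self]
        exact hok j rfl
  · push Not at hok
    obtain ⟨k, rfl, h1, h2⟩ := hok
    obtain ⟨m, rfl⟩ := Subgroup.mem_zpowers_iff.1 h2
    refine ⟨s, k, w (!e) ^ m * (s k).2, ?_, fun j hj => hr j (by omega)⟩
    simp only [ev]
    rw [h1, map_mul, ← pinch_zpow]
    simp only [mul_assoc]

theorem hasRed_mk (u : FreeGroup (Fin 3)) (x : G) (hx : HasRed x) :
    HasRed (PresentedGroup.mk {rel} u * x) := by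
  induction u using FreeGroup.induction_on generalizing x with
  | C1 => rw [map_one, one_mul]; exact hx
  | of j =>
    fin_cases j
    · have h : PresentedGroup.mk {rel} (FreeGroup.of (0 : Fin 3)) = ι (FreeGroup.of 0) := by
        simp [ι, inc]
      have := hasRed_base (FreeGroup.of 0) x hx
      rw [← h] at this
      exact this
    · have h : PresentedGroup.mk {rel} (FreeGroup.of (1 : Fin 3)) = ι (FreeGroup.of 1) := by
        simp [ι, inc]
      have := hasRed_base (FreeGroup.of 1) x hx
      rw [← h] at this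
      exact this
    · exact hasRed_letter true x hx
  | inv_of j _ =>
    fin_cases j
    · have h : PresentedGroup.mk {rel} (FreeGroup.of (0 : Fin 3))⁻¹ = ι (FreeGroup.of 0)⁻¹ := by
        simp [ι, inc]
      have := hasRed_base (FreeGroup.of 0)⁻¹ x hx
      rw [← h] at this
      exact this
    · have h : PresentedGroup.mk {rel} (FreeGroup.of (1 : Fin 3))⁻¹ = ι (FreeGroup.of 1)⁻¹ := by
        simp [ι, inc]
      have := hasRed_base (FreeGroup.of 1)⁻¹ x hx
      rw [← h] at this
      exact this
    · exact hasRed_letter false x hx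
  | mul u u' h h' =>
    rw [map_mul, mul_assoc]
    exact h _ (h' _ hx)

theorem exists_red (x : G) : HasRed x := by
  obtain ⟨u, rfl⟩ := PresentedGroup.mk_surjective {rel} x
  have h1 : HasRed 1 := ⟨fun _ => (true, 1), 0, 1, by simp [ev], fun j hj => by omega⟩
  have := hasRed_mk u 1 h1
  rwa [mul_one] at this

section Act

variable {Q : Type} [Group Q]

/-- left multiplication on copies of `Q` -/
def Lm (n : ℕ) : Q →* Equiv.Perm (Fin (n + 1) × Q) where
  toFun q := ⟨fun y => (y.1, q * y.2), fun y => (y.1, q⁻¹ * y.2), fun y => by simp,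
    fun y => by simp⟩
  map_one' := by ext y <;> simp
  map_mul' q q' := by ext y <;> simp [mul_assoc]

theorem Lm_apply (n : ℕ) (q : Q) (y : Fin (n + 1) × Q) : Lm n q y = (y.1, q * y.2) := rfl

theorem Lm_free (n : ℕ) (q : Q) (x : Fin (n + 1) × Q) (k : ℤ) (h : (Lm n q ^ k) x = x) :
    (orderOf q : ℤ) ∣ k := by
  rw [← map_zpow, Lm_apply] at h
  rw [orderOf_dvd_iff_zpow_eq_one]
  have := congrArg Prod.snd h
  simpa using this

/-- the prescribed points -/
def D (n : ℕ) (s : ℕ → Bool × F) (p : F →* Q) (c : Bool) (j : Fin n) : Fin (n + 1) × Q :=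
  if (s j).1 = c then (j.castSucc, p (s j).2) else (j.succ, 1)

theorem D_sep (n : ℕ) (s : ℕ → Bool × F) (hr : red s n) (p : F →* Q)
    (hp : ∀ (c : Bool) (j : ℕ), j < n → (s j).2 ∉ Subgroup.zpowers (w c) →
      p (s j).2 ∉ Subgroup.zpowers (p (w c))) (c : Bool) (j j' : Fin n) (k : ℤ)
    (h : (Lm n (p (w c)) ^ k) (D n s p c j) = D n s p c j') : j = j' := by
  rw [← map_zpow, Lm_apply] at h
  by_cases h1 : (s j).1 = c <;> by_cases h2 : (s j').1 = c
  · simp only [D, h1, h2, if_true, Prod.mk.injEq] at h
    exact Fin.castSucc_injective _ h.1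
  · exfalso
    simp only [D, if_pos h1, if_neg h2, Prod.mk.injEq] at h
    have h3 : (j : ℕ) = j' + 1 := by
      have := congrArg Fin.val h.1
      simpa using this
    have h4 : (s j).2 ∉ Subgroup.zpowers (w (s j).1) := by
      have := hr j' (by omega)
      rw [← h3] at this
      apply this
      rw [h1]
      cases c <;> simpa using h2
    rw [h1] at h4
    apply hp c j j.2 h4
    refine Subgroup.mem_zpowers_iff.2 ⟨-k, ?_⟩
    rw [zpow_neg]
    exact inv_eq_of_mul_eq_one_right h.2
  · exfalso
    simp only [D, if_neg h1, if_pos h2, Prod.mk.injEq] at h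
    have h3 : (j' : ℕ) = j + 1 := by
      have := congrArg Fin.val h.1
      simpa using this.symm
    have h4 : (s j').2 ∉ Subgroup.zpowers (w (s j').1) := by
      have := hr j (by omega)
      rw [← h3] at this
      apply this
      rw [h2]
      cases c <;> simpa using h1
    rw [h2] at h4
    apply hp c j' j'.2 h4
    refine Subgroup.mem_zpowers_iff.2 ⟨k, ?_⟩
    rw [← h.2, mul_one]
  · simp only [D, if_neg h1, if_neg h2, Prod.mk.injEq] at h
    exact Fin.succ_injective _ h.1

end Act

/-- A nontrivial element with a reduced form acts nontrivially on a finite set. -/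
theorem exists_act (s : ℕ → Bool × F) (n : ℕ) (g : F) (hr : red s n) (hg : n = 0 → g ≠ 1) :
    ∃ (X : Type) (_ : Finite X) (Ψ : G →* Equiv.Perm X), Ψ (ι g * ev s n) ≠ 1 := by
  obtain ⟨Q, iG, iF, p, ho, h0, hp⟩ := fam (fun j => (s j).2) g n
  have hp' : ∀ (c : Bool) (j : ℕ), j < n → (s j).2 ∉ Subgroup.zpowers (w c) →
      p (s j).2 ∉ Subgroup.zpowers (p (w c)) := by
    intro c j hj
    cases c
    · exact (hp j hj).2
    · exact (hp j hj).1
  have hsep := D_sep n s hr p hp'
  have hpow : ∀ q : Q, Lm n q ^ orderOf q = 1 := by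
    intro q
    rw [← map_pow, pow_orderOf_eq_one, map_one]
  obtain ⟨T, hT, hT'⟩ := ext_perm (Lm n (p a)) (Lm n (p v)) (orderOf (p a)) (orderOf_pos _)
    (hpow _) (by rw [ho]; exact hpow _) (fun x k h => Lm_free n _ x k h)
    (fun x k h => by rw [ho]; exact Lm_free n _ x k h) (D n s p true) (D n s p false)
    (hsep true) (hsep false)
  let f : Fin 3 → Equiv.Perm (Fin (n + 1) × Q) := ![Lm n (p a), Lm n (p b), T]
  have hf : ∀ x : F, FreeGroup.lift f (inc x) = Lm n (p x) := by
    intro x
    have : (FreeGroup.lift f).comp inc = (Lm n).comp p := by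
      apply FreeGroup.ext_hom
      intro j
      fin_cases j <;> simp [inc, f, a, b]
    exact congrArg (fun φ => φ x) this
  have hrel : ∀ r ∈ ({rel} : Set (FreeGroup (Fin 3))), FreeGroup.lift f r = 1 := by
    intro r hr
    rw [Set.mem_singleton_iff.1 hr, rel, map_mul, map_mul, map_mul, map_inv, map_inv, hf, hf,
      FreeGroup.lift_apply_of]
    change T⁻¹ * Lm n (p a) * T * (Lm n (p v))⁻¹ = 1
    rw [mul_inv_eq_one, mul_assoc, inv_mul_eq_iff_eq_mul]
    ext1 x
    exact (hT x).symm
  let Ψ : G →* Equiv.Perm (Fin (n + 1) × Q) := PresentedGroup.toGroup hrel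
  have hΨι : ∀ x : F, Ψ (ι x) = Lm n (p x) := fun x => hf x
  have hΨτ : Ψ τ = T := by
    change FreeGroup.lift f (FreeGroup.of 2) = T
    rw [FreeGroup.lift_apply_of]
    rfl
  have hmove : ∀ j : Fin n, Ψ (tt (s j).1) (j.castSucc, p (s j).2) = (j.succ, 1) := by
    intro j
    have h1 := hT' j
    by_cases h : (s j).1 = true
    · simp only [D, h, if_true] at h1
      simp only [h, tt, if_true, hΨτ]
      simpa using h1
    · have h' : (s j).1 = false := by simpa using h
      simp only [D, h', if_true] at h1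
      simp only [h', tt, Bool.false_eq_true, if_false, map_inv, hΨτ]
      rw [Equiv.Perm.inv_eq_iff_eq]
      simpa using h1.symm
  have hev : ∀ (j : ℕ) (hj : j < n + 1), Ψ (ev s j) (0, 1) = (⟨j, hj⟩, 1) := by
    intro j
    induction j with
    | zero => intro hj; simp [ev]
    | succ j ih =>
      intro hj
      simp only [ev, map_mul, Equiv.Perm.mul_apply]
      rw [ih (by omega), hΨι, Lm_apply, mul_one]
      exact hmove ⟨j, by omega⟩
  refine ⟨_, inferInstance, Ψ, ?_⟩
  intro h
  have h2 : Ψ (ι g * ev s n) (0, 1) = (0, 1) := by rw [h]; rfl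
  rw [map_mul, Equiv.Perm.mul_apply, hev n (by omega), hΨι, Lm_apply, mul_one,
    Prod.mk.injEq] at h2
  have hn : n = 0 := by
    have := congrArg Fin.val h2.1
    simpa using this
  exact h0 (hg hn) h2.2

theorem a_ne_one : (a : F) ≠ 1 := FreeGroup.of_ne_one 0

/-- The group is residually finite. -/
theorem rf (x : G) (hx : x ≠ 1) : ∃ N : Subgroup G, N.Normal ∧ N.FiniteIndex ∧ x ∉ N := by
  obtain ⟨s, n, g, rfl, hr⟩ := exists_red x
  obtain ⟨X, iX, Ψ, hΨ⟩ := exists_act s n g hr (by
    rintro rfl rfl
    exact hx (by simp [ev]))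
  refine ⟨Ψ.ker, inferInstance, inferInstance, ?_⟩
  rwa [MonoidHom.mem_ker]

/-- The element `a` of the group is not trivial. -/
theorem ιa_ne_one : ι a ≠ 1 := by
  obtain ⟨X, iX, Ψ, hΨ⟩ := exists_act (fun _ => (true, 1)) 0 a (fun j hj => by omega)
    (fun _ => a_ne_one)
  intro h
  apply hΨ
  rw [h]
  simp [ev]

/-- The element `a` of the group lies in all terms of the derived series. -/
theorem a_mem (k : ℕ) : ι a ∈ derivedSeries G k := by
  induction k with
  | zero => rw [derivedSeries_zero]; trivial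
  | succ k ih =>
    have hn : (derivedSeries G k).Normal := derivedSeries_normal G k
    have hn' : (derivedSeries G (k + 1)).Normal := derivedSeries_normal G (k + 1)
    have hc : ι b * ι a * (ι b)⁻¹ ∈ derivedSeries G k := hn.conj_mem _ ih _
    have h1 : ⁅ι a, ι b * ι a * (ι b)⁻¹⁆ ∈ derivedSeries G (k + 1) := by
      rw [derivedSeries_succ]
      exact Subgroup.commutator_mem_commutator ih hc
    have h2 : ι v = ⁅ι a, ι b * ι a * (ι b)⁻¹⁆ := by
      simp only [v, map_mul, map_inv, commutatorElement_def]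
    have h3 : ι a = τ * ι v * τ⁻¹ := by
      rw [← rel_eq]; group
    rw [h3, h2]
    exact hn'.conj_mem _ h1 _

end Pool.Agent.Q59.RS
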